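import Pool.Agent.H.MP_12f94a_pr.A

namespace Pool.Agent.Results.MP_12f94a_pr.Layers

open MeasureTheory ProbabilityTheory

def clk {V : Type} (c : Sym2 V → ℝ × ℝ) (b : Bool) (u v : V) : ℝ :=
  if b then (c s(u, v)).2 else (c s(u, v)).1

def Next {V : Type} (G : SimpleGraph V) (s : V → Bool) (c : Sym2 V → ℝ × ℝ)
    (σ τ : V → Option (ℝ × Bool)) : Prop :=
  ∃ u v t b, G.Adj u v ∧ σ u = some (t, b) ∧ σ v = none ∧
    (∀ u' v' t' b', G.Adj u' v' → σ u' = some (t', b') → σ v' = none →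
      t + clk c b u v ≤ t' + clk c b' u' v') ∧
    τ v = some (t + clk c b u v, b || s v) ∧ ∀ w, w ≠ v → τ w = σ w

def Run {V : Type} (G : SimpleGraph V) (o : V) (s : V → Bool) (c : Sym2 V → ℝ × ℝ)
    (σ : ℕ → V → Option (ℝ × Bool)) : Prop :=
  (σ 0 o = some (0, false) ∧ ∀ w, w ≠ o → σ 0 w = none) ∧ ∀ n, Next G s c (σ n) (σ (n + 1))

def Survives {V : Type} (G : SimpleGraph V) (σ : ℕ → V → Option (ℝ × Bool)) (b : Bool) : Prop :=
  ∃ S : Set V, S.Infinite ∧ (G.induce S).Connected ∧ ∀ v ∈ S, ∃ n t, σ n v = some (t, b)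

noncomputable def law (V : Type) (μ : unitInterval) (r : ℝ) :
    Measure ((V → Bool) × (Sym2 V → ℝ × ℝ)) :=
  (Measure.infinitePi fun _ : V => bernoulliMeasure true false μ).prod
    (Measure.infinitePi fun _ : Sym2 V => (expMeasure 1).prod (expMeasure r))

open Classical Pool.Agent.H.MP_12f94a_pr

section
variable {V : Type} {G : SimpleGraph V} {o : V} {s : V → Bool} {c : Sym2 V → ℝ × ℝ}
  {σ : ℕ → V → Option (ℝ × Bool)}

lemma bd (hG : G.Connected) (P : V → Prop) {a v : V} (ha : P a) (hv : ¬ P v) :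
    ∃ u w, G.Adj u w ∧ P u ∧ ¬ P w := by
  obtain ⟨p⟩ := hG a v
  obtain ⟨d, -, h1, h2⟩ := p.exists_boundary_dart {x | P x} ha hv
  exact ⟨_, _, d.adj, h1, h2⟩

lemma ex [Infinite V] [G.LocallyFinite] (hG : G.Connected) : ∃ σ, Run G o s c σ := by
  have k : ∀ σ : {σ : V → Option (ℝ × Bool) // {v | σ v ≠ none}.Finite ∧ σ o ≠ none},
      ∃ τ : {σ : V → Option (ℝ × Bool) // {v | σ v ≠ none}.Finite ∧ σ o ≠ none},
        Next G s c σ.1 τ.1 := fun ⟨σ, h1, h2⟩ => by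
    obtain ⟨v, hv⟩ := h1.exists_notMem
    obtain ⟨u, w, a1, a2, a3⟩ := bd hG (fun v => σ v ≠ none) h2 hv
    obtain ⟨x, hx⟩ := Option.ne_none_iff_exists'.mp a2
    have f : {q : (V × V) × ℝ × Bool | G.Adj q.1.1 q.1.2 ∧ σ q.1.1 = some q.2 ∧ σ q.1.2 = none}.Finite := by
      refine Set.Finite.of_finite_image (f := Prod.fst) ((h1.biUnion fun u _ =>
        (Set.finite_singleton u).prod (G.neighborSet u).toFinite).subset ?_) fun q hq r hr e =>
          Prod.ext e (Option.some_injective _ (hq.2.1.symm.trans (e ▸ hr.2.1)))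
      rintro _ ⟨q, hq, rfl⟩
      exact Set.mem_biUnion (x := q.1.1) (by simp [hq.2.1]) ⟨rfl, hq.1⟩
    obtain ⟨q, hq, m⟩ := Set.exists_min_image _ (fun q => q.2.1 + clk c q.2.2 q.1.1 q.1.2) f
      ⟨((u, w), x), a1, hx, not_not.mp a3⟩
    refine ⟨⟨Function.update σ q.1.2 (some (q.2.1 + clk c q.2.2 q.1.1 q.1.2, q.2.2 || s q.1.2)),
      (h1.insert q.1.2).subset fun z hz => ?_, ?_⟩, q.1.1, q.1.2, q.2.1, q.2.2, hq.1, hq.2.1,
      hq.2.2, fun u' v' t' b' b1 b2 b3 => m ((u', v'), t', b') ⟨b1, b2, b3⟩, by simp,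
      fun w hw => by simp [hw]⟩
    · by_cases e : z = q.1.2
      exacts [.inl e, .inr (by simpa [e] using hz)]
    · by_cases e : o = q.1.2 <;> simp [e, h2]
  choose f hf using k
  let x : {σ : V → Option (ℝ × Bool) // {v | σ v ≠ none}.Finite ∧ σ o ≠ none} :=
    ⟨Function.update (fun _ => none) o (some (0, false)), (Set.finite_singleton o).subset
      fun v hv => by_contra fun e => by simp [show v ≠ o from e] at hv, by simp⟩
  exact ⟨fun n => (f^[n] x).1, ⟨by simp [x], fun w hw => by simp [x, hw]⟩,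
    fun n => by simp only [Function.iterate_succ_apply']; exact hf _⟩

lemma mono (h : Run G o s c σ) {v : V} {x : ℝ × Bool} {m n : ℕ} (e : m ≤ n)
    (hv : σ m v = some x) : σ n v = some x := by
  induction n, e using Nat.le_induction with
  | base => exact hv
  | succ n _ ih =>
    obtain ⟨u, w, t, b, -, -, h1, -, -, h2⟩ := h.2 n
    rw [h2 _ (fun e => by simp [e, h1] at ih), ih]

lemma inv (h : Run G o s c σ) {ε : ℝ} (h0 : ∀ e, 0 < (c e).1 ∧ 0 < (c e).2) (n : ℕ) :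
    ∀ v t b, σ n v = some (t, b) → ∃ p : G.Walk o v, p.IsPath ∧ (∀ w ∈ p.support, σ n w ≠ none) ∧
      (p.edges.filter fun e => ε < (c e).1 ∧ ε < (c e).2).length * ε ≤ t := by
  induction n with
  | zero =>
    intro v t b hv
    by_cases e : v = o
    · subst e
      simp [h.1.1] at hv
      exact ⟨.nil, by simp, by simp [h.1.1], by simp [← hv.1]⟩
    · simp [h.1.2 _ e] at hv
  | succ n ih =>
    intro v t b hv
    have m : ∀ w, σ n w ≠ none → σ (n + 1) w ≠ none := fun w hw => by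
      obtain ⟨x, hx⟩ := Option.ne_none_iff_exists'.mp hw
      simp [mono h n.le_succ hx]
    obtain ⟨u, w, t', b', a, h1, h2, -, h3, h4⟩ := h.2 n
    by_cases e : v = w
    · subst e
      obtain ⟨p, p1, p2, p3⟩ := ih u t' b' h1
      refine ⟨p.concat a, p1.concat (fun f => p2 _ f h2) a, fun z hz => ?_, ?_⟩
      · rcases (by simpa using hz : _ ∨ _) with hz | rfl
        exacts [m z (p2 z hz), by simp [hv]]
      · have : t' + clk c b' u v = t := congrArg Prod.fst (Option.some_injective _ (h3.symm.trans hv))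
        have k := h0 s(u, v)
        rw [SimpleGraph.Walk.edges_concat, List.concat_eq_append, List.filter_append,
          List.length_append, ← this, Nat.cast_add, add_mul]
        refine add_le_add p3 ?_
        unfold clk
        by_cases f : ε < (c s(u, v)).1 ∧ ε < (c s(u, v)).2 <;> split_ifs <;> simp [f] <;> linarith [f]
    · rw [h4 _ e] at hv
      obtain ⟨p, p1, p2, p3⟩ := ih v t b hv
      exact ⟨p, p1, fun z hz => m z (p2 z hz), p3⟩

lemma all (hG : G.Connected) (h : Run G o s c σ) {ε : ℝ} (hε : 0 < ε)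
    (h0 : ∀ e, 0 < (c e).1 ∧ 0 < (c e).2) (h1 : ∀ k : ℕ, {v | ∃ p : G.Walk o v, p.IsPath ∧
      (p.edges.filter fun e => ε < (c e).1 ∧ ε < (c e).2).length ≤ k}.Finite) (v : V) :
    ∃ n, σ n v ≠ none := by
  by_contra hv
  obtain ⟨u, w, a, ⟨m, a1⟩, a2⟩ := bd hG (fun v => ∃ n, σ n v ≠ none) (a := o) ⟨0, by simp [h.1.1]⟩ hv
  obtain ⟨x, hx⟩ := Option.ne_none_iff_exists'.mp a1
  choose U Z t b e1 e2 e3 e4 s e5 using h.2
  refine Set.infinite_of_injective_forall_mem (f := fun n => Z (m + n))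
    (Function.Injective.of_lt_imp_ne fun i j l e => ?_) (fun n => ?_) (h1 ⌈(x.1 + clk c x.2 u w) / ε⌉₊)
  · have := mono h (show m + i + 1 ≤ m + j by omega) (s (m + i))
    rw [show Z (m + i) = Z (m + j) from e, e3] at this
    cases this
  · obtain ⟨p, p1, -, p3⟩ := inv h (ε := ε) h0 _ _ _ _ (s (m + n))
    refine ⟨p, p1, Nat.cast_le.mp (((le_div_iff₀ hε).mpr (p3.trans ?_)).trans (Nat.le_ceil _))⟩
    exact e4 _ u w x.1 x.2 a (mono h (by omega) hx) (by_contra fun f => a2 ⟨_, f⟩)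
end

theorem result : ∃ (G : SimpleGraph (ℕ × ℕ × ℕ)) (o : ℕ × ℕ × ℕ), G.Connected ∧
    (∀ v, (G.neighborSet v).Finite) ∧
    (∃ C D : ℕ, ∀ n : ℕ, 1 ≤ n → {v | G.dist o v ≤ n}.encard ≤ (C * n ^ D : ℕ)) ∧
    (∃ d c : ℝ, 1 < d ∧ 0 < c ∧ ∀ S : Finset (ℕ × ℕ × ℕ), c * (S.card : ℝ) ^ ((d - 1) / d) ≤
      {v | v ∈ S ∧ ∃ w, w ∉ S ∧ G.Adj v w}.ncard) ∧
    ∀ (r : ℝ) (μ : unitInterval), 0 < r → 0 < μ → μ < 1 → IsProbabilityMeasure (law (ℕ × ℕ × ℕ) μ r) ∧
      ∀ᵐ ω ∂law _ μ r, (∃ σ, Run G o ω.1 ω.2 σ) ∧ ∀ σ, Run G o ω.1 ω.2 σ →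
        (∀ v, ∃ n, σ n v ≠ none) ∧ Survives G σ true := by
  refine ⟨Q, (0, 0, 0), Q_conn, fun v => Set.toFinite _, ⟨8, 3, Q_growth⟩,
    ⟨2, 1, one_lt_two, one_pos, fun S => ?_⟩, fun r μ hr h0 _ => ?_⟩
  · rw [one_mul, show ((2 : ℝ) - 1) / 2 = 1 / 2 by norm_num, ← Real.sqrt_eq_rpow, Real.sqrt_le_left
      (Nat.cast_nonneg _), ← Finset.coe_filter, Set.ncard_coe_finset]
    exact_mod_cast Q_iso S
  have := isProbabilityMeasure_expMeasure hr
  have := isProbabilityMeasure_expMeasure one_pos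
  obtain ⟨ε, hε, hc⟩ := clocks Q hr Q_deg (0, 0, 0)
  unfold law
  refine ⟨inferInstance, ?_⟩
  filter_upwards [Measure.quasiMeasurePreserving_fst.ae (seeds h0 (fun i => ((i + 1, 0, 0) : ℕ × ℕ × ℕ))
    fun i j e => by simpa using e), Measure.quasiMeasurePreserving_snd.ae hc] with ω ⟨i, hi⟩ hc
  refine ⟨ex Q_conn, fun σ h => ⟨all Q_conn h hε hc.1 hc.2, ?_⟩⟩
  have k : ∀ n x y t b, σ n (i + 1, x, y) = some (t, b) → b = true := fun n => by
    induction n with
    | zero => intro x y t b e; simp [h.1.2 (i + 1, x, y) (by simp)] at e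
    | succ n ih =>
      intro x y t b e
      obtain ⟨⟨j, z, w⟩, v, t', b', a, h1, -, -, h3, h4⟩ := h.2 n
      by_cases f : (i + 1, x, y) = v
      · subst f
        have : (b' || ω.1 (i + 1, x, y)) = b :=
          congrArg Prod.snd (Option.some_injective _ (h3.symm.trans e))
        by_cases g : j = i + 1
        · rw [← this, ih z w t' b' (g ▸ h1), Bool.true_or]
        · obtain ⟨rfl, rfl⟩ : x = 0 ∧ y = 0 := by simp [Q] at a; omega
          rw [← this, hi, Bool.or_true]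
      · exact ih x y t b (by rwa [h4 _ f] at e)
  refine ⟨Set.range fun x => (i + 1, x, 0), Set.infinite_range_of_injective fun x y e => by
    simpa using e, ?_, ?_⟩
  · have a : ∀ x, (Q.induce (Set.range fun x => (i + 1, x, 0))).Reachable ⟨_, 0, rfl⟩ ⟨_, x, rfl⟩ :=
      fun x => by
        induction x with
        | zero => rfl
        | succ x ih => exact ih.trans (SimpleGraph.Adj.reachable (by simp [Q]))
    have : Nonempty (Set.range fun x : ℕ => ((i + 1, x, 0) : ℕ × ℕ × ℕ)) := ⟨⟨_, 0, rfl⟩⟩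
    refine ⟨?_⟩
    rintro ⟨_, x, rfl⟩ ⟨_, y, rfl⟩
    exact (a x).symm.trans (a y)
  · rintro _ ⟨x, rfl⟩
    obtain ⟨n, hn⟩ := all Q_conn h hε hc.1 hc.2 (i + 1, x, 0)
    obtain ⟨⟨t, b⟩, e⟩ := Option.ne_none_iff_exists'.mp hn
    exact ⟨n, t, k n x 0 t b e ▸ e⟩

end Pool.Agent.Results.MP_12f94a_pr.Layers
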